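import Pool.Agent.H250R3.Berg.Stmts

set_option autoImplicit false

open Polynomial

namespace Pool.Agent.H988R3.Berg

open Pool.Agent.H250R3.Berg

lemma eq_prod (f : ℝ[X]) (hm : f.Monic) (T : Finset ℝ) (hT : ∀ x ∈ T, f.eval x = 0)
    (hc : f.natDegree ≤ T.card) : f.roots = T.val ∧ f = ∏ x ∈ T, (X - C x) := by
  have h0 : f ≠ 0 := hm.ne_zero
  have h1 : T.val ≤ f.roots := by
    rw [Multiset.le_iff_subset T.nodup]
    intro x hx
    exact (Polynomial.mem_roots h0).2 (hT x hx)
  have h2 : f.roots = T.val := by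
    symm
    apply Multiset.eq_of_le_of_card_le h1
    exact le_trans (Polynomial.card_roots' f) hc
  refine ⟨h2, ?_⟩
  have h3 : Multiset.card f.roots = f.natDegree := by
    apply le_antisymm (Polynomial.card_roots' f)
    rw [h2]
    exact hc
  have h4 := Polynomial.prod_multiset_X_sub_C_of_monic_of_roots_card_eq hm h3
  rw [h2] at h4
  rw [← h4]
  rfl

lemma sum_mult (f : ℝ[X]) (F : Finset ℝ) (hF : F ⊆ f.roots.toFinset) :
    ∑ y ∈ F, f.rootMultiplicity y ≤ f.natDegree := by
  calc ∑ y ∈ F, f.rootMultiplicity y ≤ ∑ y ∈ f.roots.toFinset, f.rootMultiplicity y :=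
        Finset.sum_le_sum_of_subset hF
    _ = ∑ y ∈ f.roots.toFinset, f.roots.count y := by
        apply Finset.sum_congr rfl
        intro y _
        rw [Polynomial.count_roots]
    _ = Multiset.card f.roots := Multiset.toFinset_sum_count_eq _
    _ ≤ f.natDegree := Polynomial.card_roots' f

lemma odd_le (f : ℝ[X]) (O : Finset ℝ) (hO : ∀ y ∈ O, Odd (f.rootMultiplicity y)) :
    O.card ≤ ∑ y ∈ O, f.rootMultiplicity y := by
  rw [Finset.card_eq_sum_ones]
  apply Finset.sum_le_sum
  intro y hy
  exact (hO y hy).pos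

/-- no double root -/
lemma no_double (j : ℕ) (hj : 1 ≤ j) (f : ℝ[X]) (hd : f.natDegree ≤ j + 1)
    (hf : j ≤ (oddRoots f).card) (x : ℝ) (h1 : f.eval x = 0)
    (h2 : (derivative f).eval x = 0) : False := by
  have hf0 : f ≠ 0 := by
    rintro rfl
    simp [oddRoots] at hf
    omega
  have hm : 2 ≤ f.rootMultiplicity x := by
    have := (Polynomial.one_lt_rootMultiplicity_iff_isRoot hf0 (t := x)).2 ⟨h1, h2⟩
    omega
  have hO : ∀ y ∈ oddRoots f, Odd (f.rootMultiplicity y) := by
    intro y hy
    unfold oddRoots at hy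
    rw [Finset.mem_filter] at hy
    exact hy.2.2
  have hOs : oddRoots f ⊆ f.roots.toFinset := Finset.filter_subset _ _
  have hx : x ∈ f.roots.toFinset := by
    rw [Multiset.mem_toFinset]
    exact (Polynomial.mem_roots hf0).2 h1
  by_cases hxO : x ∈ oddRoots f
  · have h3 := sum_mult f _ hOs
    rw [← Finset.add_sum_erase _ _ hxO] at h3
    have h4 := odd_le f ((oddRoots f).erase x) (fun y hy => hO y (Finset.mem_of_mem_erase hy))
    rw [Finset.card_erase_of_mem hxO] at h4
    obtain ⟨c, hc⟩ := hO x hxO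
    omega
  · have h3 := sum_mult f (insert x (oddRoots f)) (Finset.insert_subset hx hOs)
    rw [Finset.sum_insert hxO] at h3
    have h4 := odd_le f (oddRoots f) hO
    omega

lemma wronsk (j : ℕ) (hj : 1 ≤ j) (q p : ℝ[X]) (hq : q.natDegree = j)
    (hp : p.natDegree = j + 1)
    (H : ∀ A B : ℝ, (A ≠ 0 ∨ B ≠ 0) → j ≤ (oddRoots (C A * q + C B * p)).card) (x : ℝ) :
    q.eval x * (derivative p).eval x - (derivative q).eval x * p.eval x ≠ 0 := by
  intro hW
  have key : ∀ A B : ℝ, (A ≠ 0 ∨ B ≠ 0) → A * q.eval x + B * p.eval x = 0 →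
      A * (derivative q).eval x + B * (derivative p).eval x = 0 → False := by
    intro A B hAB e1 e2
    refine no_double j hj (C A * q + C B * p) ?_ (H A B hAB) x ?_ ?_
    · refine (Polynomial.natDegree_add_le _ _).trans (max_le ?_ ?_)
      · exact (Polynomial.natDegree_C_mul_le _ _).trans (by omega)
      · exact (Polynomial.natDegree_C_mul_le _ _).trans (by omega)
    · simpa using e1
    · simpa using e2
  by_cases h1 : p.eval x = 0
  · by_cases h2 : q.eval x = 0
    · by_cases h3 : (derivative p).eval x = 0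
      · by_cases h4 : (derivative q).eval x = 0
        · exact key 1 0 (Or.inl one_ne_zero) (by rw [h1, h2]; ring) (by rw [h3, h4]; ring)
        · exact key 0 1 (Or.inr one_ne_zero) (by rw [h1]; ring) (by rw [h3]; ring)
      · exact key ((derivative p).eval x) (-(derivative q).eval x) (Or.inl h3)
          (by rw [h1, h2]; ring) (by ring)
    · exact key (p.eval x) (-q.eval x) (Or.inr (neg_ne_zero.2 h2)) (by ring)
        (by linear_combination (-1 : ℝ) * hW)
  · exact key (p.eval x) (-q.eval x) (Or.inl h1) (by ring)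
      (by linear_combination (-1 : ℝ) * hW)

/-- the step between two consecutive roots -/
lemma step (q p r : ℝ[X]) (a b : ℝ) (hab : a < b)
    (hW : ∀ x : ℝ, q.eval x * (derivative p).eval x - (derivative q).eval x * p.eval x ≠ 0)
    (hp : p = (X - C a) * ((X - C b) * r)) (hr : 0 < r.eval a * r.eval b) :
    ∃ t, a < t ∧ t < b ∧ q.eval t = 0 := by
  have hpa : p.eval a = 0 := by rw [hp]; simp
  have hpb : p.eval b = 0 := by rw [hp]; simp
  have hda : (derivative p).eval a = (a - b) * r.eval a := by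
    rw [hp]; simp [derivative_mul]
  have hdb : (derivative p).eval b = (b - a) * r.eval b := by
    rw [hp]; simp [derivative_mul]
  set W : ℝ → ℝ := fun x => q.eval x * (derivative p).eval x - (derivative q).eval x * p.eval x
    with hWdef
  have hWc : Continuous W := by
    rw [hWdef]
    fun_prop
  have hsign : 0 < W a * W b := by
    by_contra hneg
    have hne : W a * W b ≠ 0 := mul_ne_zero (hW a) (hW b)
    have hlt : W a * W b < 0 := lt_of_le_of_ne (not_lt.1 hneg) hne
    have : ∃ x ∈ Set.Icc a b, W x = 0 := by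
      rcases mul_neg_iff.1 hlt with ⟨h1, h2⟩ | ⟨h1, h2⟩
      · have := intermediate_value_Icc' hab.le hWc.continuousOn
        have h3 : (0 : ℝ) ∈ Set.Icc (W b) (W a) := ⟨h2.le, h1.le⟩
        obtain ⟨x, hx, hx0⟩ := this h3
        exact ⟨x, hx, hx0⟩
      · have := intermediate_value_Icc hab.le hWc.continuousOn
        have h3 : (0 : ℝ) ∈ Set.Icc (W a) (W b) := ⟨h1.le, h2.le⟩
        obtain ⟨x, hx, hx0⟩ := this h3
        exact ⟨x, hx, hx0⟩
    obtain ⟨x, _, hx⟩ := this
    exact hW x hx
  have h1 : W a = q.eval a * ((a - b) * r.eval a) := by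
    simp only [hWdef, hpa, hda]; ring
  have h2 : W b = q.eval b * ((b - a) * r.eval b) := by
    simp only [hWdef, hpb, hdb]; ring
  have h3 : W a * W b = -((b - a) ^ 2 * (r.eval a * r.eval b) * (q.eval a * q.eval b)) := by
    rw [h1, h2]; ring
  have h4 : 0 < (b - a) ^ 2 * (r.eval a * r.eval b) := mul_pos (pow_pos (sub_pos.2 hab) 2) hr
  have h5 : q.eval a * q.eval b < 0 := by
    rw [h3] at hsign
    have h6 : (b - a) ^ 2 * (r.eval a * r.eval b) * (q.eval a * q.eval b) < 0 := by linarith
    exact (pos_iff_neg_of_mul_neg h6).1 h4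
  have hqc : Continuous (fun x : ℝ => q.eval x) := q.continuous
  rcases mul_neg_iff.1 h5 with ⟨h6, h7⟩ | ⟨h6, h7⟩
  · have h8 : (0 : ℝ) ∈ Set.Ioo (q.eval b) (q.eval a) := ⟨h7, h6⟩
    obtain ⟨t, ht, ht0⟩ := intermediate_value_Ioo' hab.le hqc.continuousOn h8
    exact ⟨t, ht.1, ht.2, ht0⟩
  · have h8 : (0 : ℝ) ∈ Set.Ioo (q.eval a) (q.eval b) := ⟨h6, h7⟩
    obtain ⟨t, ht, ht0⟩ := intermediate_value_Ioo hab.le hqc.continuousOn h8
    exact ⟨t, ht.1, ht.2, ht0⟩

theorem taskInter : TaskInter := by
  intro j hj q p hqm hqd hpm hpd H hS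
  set S := oddRoots p with hSdef
  have hSroot : ∀ x ∈ S, p.eval x = 0 ∧ 0 < x ∧ x < 1 := by
    intro x hx
    rw [hSdef] at hx
    unfold oddRoots at hx
    rw [Finset.mem_filter, Multiset.mem_toFinset, Polynomial.mem_roots hpm.ne_zero] at hx
    exact ⟨hx.1, hx.2.1⟩
  obtain ⟨hroots, hprod⟩ := eq_prod p hpm S (fun x hx => (hSroot x hx).1) (by omega)
  have hcard : S.card = j + 1 := by
    apply le_antisymm _ hS
    have := Polynomial.card_roots' p
    rw [hroots, hpd] at this
    exact this
  set em := S.orderEmbOfFin hcard with hem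
  set s : ℕ → ℝ := fun ν => if h : ν < j + 1 then em ⟨ν, h⟩ else 0 with hs
  have hsS : ∀ ν, ν < j + 1 → s ν ∈ S := by
    intro ν hν
    simp only [hs, dif_pos hν]
    exact Finset.orderEmbOfFin_mem S hcard _
  have hsmono : ∀ μ ν, μ < ν → ν < j + 1 → s μ < s ν := by
    intro μ ν h1 h2
    simp only [hs, dif_pos h2, dif_pos (h1.trans h2)]
    apply em.strictMono
    exact h1
  have hpprod : p = ∏ ν ∈ Finset.range (j + 1), (X - C (s ν)) := by
    rw [Finset.prod_range]
    have e : ∀ i : Fin (j + 1), s (i : ℕ) = em i := by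
      intro i
      simp only [hs, dif_pos i.isLt]
    simp only [e]
    have e2 : S = Finset.univ.map em.toEmbedding := by
      rw [hem]
      exact (Finset.map_orderEmbOfFin_univ S hcard).symm
    have e3 : ∏ x ∈ S, (X - C x : ℝ[X]) = ∏ i : Fin (j + 1), (X - C (em i) : ℝ[X]) := by
      conv_lhs => rw [e2]
      rw [Finset.prod_map]
      rfl
    rw [← e3]
    exact hprod
  have hW := wronsk j hj q p hqd hpd H
  have hex : ∀ ν, ν < j → ∃ t, s ν < t ∧ t < s (ν + 1) ∧ q.eval t = 0 := by
    intro ν hν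
    set R := ((Finset.range (j + 1)).erase ν).erase (ν + 1) with hR
    have hp2 : p = (X - C (s ν)) * ((X - C (s (ν + 1))) * ∏ μ ∈ R, (X - C (s μ))) := by
      rw [hR, Finset.mul_prod_erase ((Finset.range (j + 1)).erase ν) (fun μ => X - C (s μ))
        (by rw [Finset.mem_erase, Finset.mem_range]; omega),
        Finset.mul_prod_erase (Finset.range (j + 1)) (fun μ => X - C (s μ))
        (by rw [Finset.mem_range]; omega)]
      exact hpprod
    refine step q p _ (s ν) (s (ν + 1)) (hsmono ν (ν + 1) (by omega) (by omega)) hW hp2 ?_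
    rw [Polynomial.eval_prod, Polynomial.eval_prod, ← Finset.prod_mul_distrib]
    apply Finset.prod_pos
    intro μ hμ
    rw [hR, Finset.mem_erase, Finset.mem_erase, Finset.mem_range] at hμ
    simp only [eval_sub, eval_X, eval_C]
    rcases Nat.lt_or_ge μ ν with h | h
    · have h1 := hsmono μ ν h (by omega)
      have h2 := hsmono μ (ν + 1) (by omega) (by omega)
      exact mul_pos (by linarith) (by linarith)
    · have h1 := hsmono ν μ (by omega) (by omega)
      have h2 := hsmono (ν + 1) μ (by omega) (by omega)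
      exact mul_pos_of_neg_of_neg (by linarith) (by linarith)
  choose t ht1 ht2 ht3 using hex
  set t' : ℕ → ℝ := fun ν => if h : ν < j then t ν h else 0 with ht'
  have g1 : ∀ ν, ν < j → s ν < t' ν := by
    intro ν hν
    simp only [ht', dif_pos hν]
    exact ht1 ν hν
  have g2 : ∀ ν, ν < j → t' ν < s (ν + 1) := by
    intro ν hν
    simp only [ht', dif_pos hν]
    exact ht2 ν hν
  have g3 : ∀ ν, ν < j → q.eval (t' ν) = 0 := by
    intro ν hν
    simp only [ht', dif_pos hν]
    exact ht3 ν hν
  have hle : ∀ μ ν, μ ≤ ν → ν < j + 1 → s μ ≤ s ν := by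
    intro μ ν h1 h2
    rcases Nat.eq_or_lt_of_le h1 with h | h
    · rw [h]
    · exact (hsmono μ ν h h2).le
  have hmono : ∀ μ ν, μ < ν → ν < j → t' μ < t' ν := by
    intro μ ν h1 h2
    have a1 := g2 μ (by omega)
    have a2 := g1 ν h2
    have a3 := hle (μ + 1) ν (by omega) (by omega)
    linarith
  have hinj : Set.InjOn t' (Finset.range j : Finset ℕ) := by
    intro μ hμ ν hν h
    rw [Finset.mem_coe, Finset.mem_range] at hμ hν
    rcases lt_trichotomy μ ν with h1 | h1 | h1
    · have := hmono μ ν h1 hν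
      linarith
    · exact h1
    · have := hmono ν μ h1 hμ
      linarith
  have hqprod : q = ∏ ν ∈ Finset.range j, (X - C (t' ν)) := by
    have h1 := (eq_prod q hqm ((Finset.range j).image t') (by
      intro x hx
      rw [Finset.mem_image] at hx
      obtain ⟨ν, hν, rfl⟩ := hx
      exact g3 ν (Finset.mem_range.1 hν)) (by
      rw [Finset.card_image_of_injOn hinj, Finset.card_range, hqd])).2
    rw [Finset.prod_image hinj] at h1
    exact h1
  exact ⟨t', s, hqprod, hpprod, (hSroot _ (hsS 0 (by omega))).2.1, (hSroot _ (hsS j (by omega))).2.2,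
    fun ν hν => ⟨g1 ν hν, g2 ν hν⟩⟩

end Pool.Agent.H988R3.Berg
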